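import Pool.Agent.Y676.Defs2
import Pool.Agent.Helper256.KM.Mertens

/-!
`S_KEY` from `S_RNK` and `S_TSM` (helper46, job 442 of helper676).
-/

set_option autoImplicit false

namespace Pool.Agent.Y46.KEY

open Finset Filter Pool.Agent.Y676

/-- Rankin's trick for the squarefree numbers with at most `J` prime factors. -/
lemma rankin (z : ℝ) (hz : 0 < z) (hz1 : z ≤ 1) (X J : ℕ) (F : Finset ℕ)
    (hF : ∀ D ∈ F, 1 ≤ D ∧ D ≤ X ∧ Squarefree D ∧ D.primeFactors.card ≤ J) :
    ∑ D ∈ F, (1 : ℝ) / D ≤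
      z⁻¹ ^ J * Real.exp (z * ∑ p ∈ (Icc 1 X).filter Nat.Prime, (1 : ℝ) / p) := by
  classical
  have h0 : ∀ p : ℕ, 0 ≤ z / p := fun p => by positivity
  calc ∑ D ∈ F, (1 : ℝ) / D ≤ ∑ D ∈ F, z⁻¹ ^ J * ∏ p ∈ D.primeFactors, (z / p) := by
        refine sum_le_sum fun D hD => ?_
        obtain ⟨h1, h2, h3, h4⟩ := hF D hD
        have hD0 : (0 : ℝ) < D := by exact_mod_cast h1
        rw [prod_div_distrib, prod_const, ← Nat.cast_prod, Nat.prod_primeFactors_of_squarefree h3,
          ← mul_div_assoc]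
        refine div_le_div_of_nonneg_right ?_ hD0.le
        have h5 : z ^ J ≤ z ^ D.primeFactors.card := pow_le_pow_of_le_one hz.le hz1 h4
        calc (1 : ℝ) = z⁻¹ ^ J * z ^ J := by
              rw [← mul_pow, inv_mul_cancel₀ hz.ne', one_pow]
          _ ≤ z⁻¹ ^ J * z ^ D.primeFactors.card := by gcongr
    _ = z⁻¹ ^ J * ∑ D ∈ F, ∏ p ∈ D.primeFactors, (z / p) := (mul_sum _ _ _).symm
    _ ≤ z⁻¹ ^ J * Real.exp (z * ∑ p ∈ (Icc 1 X).filter Nat.Prime, (1 : ℝ) / p) := by
        refine mul_le_mul_of_nonneg_left ?_ (by positivity)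
        calc ∑ D ∈ F, ∏ p ∈ D.primeFactors, (z / p)
            = ∑ t ∈ F.image Nat.primeFactors, ∏ p ∈ t, (z / (p : ℝ)) := by
              rw [sum_image]
              intro m hm m' hm' h
              rw [← Nat.prod_primeFactors_of_squarefree (hF m hm).2.2.1, h,
                Nat.prod_primeFactors_of_squarefree (hF m' hm').2.2.1]
          _ ≤ ∑ t ∈ ((Icc 1 X).filter Nat.Prime).powerset, ∏ p ∈ t, (z / (p : ℝ)) := by
              refine sum_le_sum_of_subset_of_nonneg ?_ (fun t _ _ => prod_nonneg fun p _ => h0 p)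
              intro t ht
              obtain ⟨m, hm, rfl⟩ := mem_image.mp ht
              rw [mem_powerset]
              intro p hp
              have hp' := Nat.prime_of_mem_primeFactors hp
              have hpd := Nat.dvd_of_mem_primeFactors hp
              rw [mem_filter, mem_Icc]
              exact ⟨⟨hp'.one_lt.le, (Nat.le_of_dvd (hF m hm).1 hpd).trans (hF m hm).2.1⟩, hp'⟩
          _ = ∏ p ∈ (Icc 1 X).filter Nat.Prime, (1 + z / (p : ℝ)) := (Finset.prod_one_add _).symm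
          _ ≤ Real.exp (∑ p ∈ (Icc 1 X).filter Nat.Prime, z / (p : ℝ)) := by
              rw [Real.exp_sum]
              refine prod_le_prod (fun p _ => by linarith [h0 p]) (fun p _ => ?_)
              rw [add_comm]
              exact Real.add_one_le_exp _
          _ = Real.exp (z * ∑ p ∈ (Icc 1 X).filter Nat.Prime, (1 : ℝ) / p) := by
              rw [mul_sum]
              congr 1
              exact sum_congr rfl fun p _ => by rw [mul_one_div]

theorem key_of (h1 : S_RNK) (h2 : S_TSM) : S_KEY := by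
  intro W hW8 hW0
  obtain ⟨κ, hκ, X1, hT⟩ := h2 W hW8 hW0
  obtain ⟨C, hC, hR⟩ := h1
  obtain ⟨C1, hM⟩ := Pool.Agent.Helper256.KM.mertens_inv
  set z : ℝ := min (κ / 16) (1 / 2) with hz
  have hz0 : 0 < z := lt_min (by positivity) (by norm_num)
  have hzκ : z ≤ κ / 16 := min_le_left _ _
  have hz1 : z ≤ 1 := (min_le_right _ _).trans (by norm_num)
  clear_value z
  have hlz : 0 ≤ Real.log z⁻¹ := Real.log_nonneg ((one_le_inv₀ hz0).2 hz1)
  have hl2 : Real.log 2 ≤ 1 := by
    have := Real.log_two_lt_d9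
    linarith
  have hl20 : 0 ≤ Real.log 2 := Real.log_nonneg (by norm_num)
  set c : ℝ := min 1 (κ / (16 * (Real.log z⁻¹ + 2))) with hc
  have hden : 0 < Real.log z⁻¹ + 2 := by linarith
  have hc0 : 0 < c := lt_min one_pos (by positivity)
  have hc1 : c ≤ 1 := min_le_left _ _
  have hc2 : c * (Real.log z⁻¹ + 2) ≤ κ / 16 := by
    have h3 : c ≤ κ / (16 * (Real.log z⁻¹ + 2)) := min_le_right _ _
    rw [le_div_iff₀ (by positivity)] at h3
    linarith
  clear_value c
  refine ⟨c, hc0, fun ε hε => ?_⟩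
  -- the limits
  have hlim : Tendsto (fun X : ℕ => Real.log (Real.log X)) atTop atTop :=
    Real.tendsto_log_atTop.comp (Real.tendsto_log_atTop.comp tendsto_natCast_atTop_atTop)
  have hexp : ∀ a : ℝ, 0 < a → Tendsto (fun X : ℕ => Real.exp (-(a * Real.log (Real.log X))))
      atTop (nhds 0) := by
    intro a ha
    exact Real.tendsto_exp_neg_atTop_nhds_zero.comp (hlim.const_mul_atTop ha)
  set K : ℝ := C * Real.exp |C1| with hK
  have hK0 : 0 < K := by positivity
  have e1 : ∀ᶠ X : ℕ in atTop, Real.exp (-((κ / 4) * Real.log (Real.log X))) < ε / (2 * K) :=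
    (hexp (κ / 4) (by positivity)).eventually (gt_mem_nhds (by positivity))
  have e2 : ∀ᶠ X : ℕ in atTop, Real.exp (-(1 * Real.log (Real.log X))) < ε / 2 :=
    (hexp 1 one_pos).eventually (gt_mem_nhds (by positivity))
  have e3 : ∀ᶠ X : ℕ in atTop, 0 ≤ Real.log (Real.log X) := hlim.eventually_ge_atTop 0
  obtain ⟨X2, hX2⟩ := eventually_atTop.1 (e1.and (e2.and e3))
  refine ⟨max (max X1 X2) 3, fun X hX J hJ => ?_⟩
  have hXX1 : X1 ≤ X := ((le_max_left _ _).trans (le_max_left _ _)).trans hX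
  have hXX2 : X2 ≤ X := ((le_max_right _ _).trans (le_max_left _ _)).trans hX
  have hX3 : 3 ≤ X := (le_max_right _ _).trans hX
  obtain ⟨g1, g2, g3⟩ := hX2 X hXX2
  rw [one_mul] at g2
  have hXr : (0 : ℝ) < X := by exact_mod_cast (by omega : 0 < X)
  have hlogX : 0 < Real.log X := Real.log_pos (by exact_mod_cast (by omega : 1 < X))
  set LL := Real.log (Real.log X) with hLL
  have hLe : Real.exp LL = Real.log X := Real.exp_log hlogX
  set F := (Icc 2 X).filter (fun D => D ^ 2 ≤ X ∧ D.Coprime W ∧ Squarefree D ∧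
      D.primeFactors.card ≤ J) with hF
  set A : ℕ → ℝ := fun D =>
    (((Icc 1 X).filter (fun n => (n.primeFactors ∩ LS W X D).card ≤ J)).card : ℝ) with hA
  have hA0 : ∀ D, 0 ≤ A D := fun D => Nat.cast_nonneg _
  have hAX : ∀ D, A D ≤ X := by
    intro D
    rw [hA]
    simp only
    have h3 := card_filter_le (Icc 1 X) (fun n => (n.primeFactors ∩ LS W X D).card ≤ J)
    rw [Nat.card_Icc, Nat.add_sub_cancel] at h3
    exact_mod_cast h3
  -- powers of `2` and of `z`
  have hp2 : (2 : ℝ) ^ J ≤ Real.exp LL := by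
    have h3 : (2 : ℝ) ^ J = Real.exp (J * Real.log 2) := by
      rw [← Real.rpow_natCast, Real.rpow_def_of_pos (by norm_num), mul_comm]
    rw [h3]
    apply Real.exp_le_exp.2
    calc (J : ℝ) * Real.log 2 ≤ (c * LL) * 1 := by gcongr
      _ ≤ 1 * LL := by rw [mul_one]; gcongr
      _ = LL := one_mul _
  have hp4 : (2 : ℝ) ^ J * 2 ^ J * z⁻¹ ^ J ≤ Real.exp (κ / 16 * LL) := by
    have h3 : (2 : ℝ) ^ J = Real.exp (J * Real.log 2) := by
      rw [← Real.rpow_natCast, Real.rpow_def_of_pos (by norm_num), mul_comm]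
    have h4 : z⁻¹ ^ J = Real.exp (J * Real.log z⁻¹) := by
      rw [← Real.rpow_natCast, Real.rpow_def_of_pos (by positivity), mul_comm]
    rw [h3, h4, ← Real.exp_add, ← Real.exp_add]
    apply Real.exp_le_exp.2
    calc (J : ℝ) * Real.log 2 + J * Real.log 2 + J * Real.log z⁻¹
        = J * (2 * Real.log 2 + Real.log z⁻¹) := by ring
      _ ≤ (c * LL) * (Real.log z⁻¹ + 2) :=
          mul_le_mul hJ (by linarith) (by positivity) (by positivity)
      _ = (c * (Real.log z⁻¹ + 2)) * LL := by ring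
      _ ≤ κ / 16 * LL := by gcongr
  -- the bad moduli
  set Fb := F.filter (fun D => ∑ l ∈ LS W X D, (1 : ℝ) / l < κ * LL) with hFb
  set Fg := F.filter (fun D => ¬ ∑ l ∈ LS W X D, (1 : ℝ) / l < κ * LL) with hFg
  have hsplit : ∑ D ∈ F, 2 ^ J * A D / D = ∑ D ∈ Fb, 2 ^ J * A D / D + ∑ D ∈ Fg, 2 ^ J * A D / D :=
    (sum_filter_add_sum_filter_not F _ _).symm
  have hbad : ∑ D ∈ Fb, 2 ^ J * A D / D ≤ ε / 2 * X := by
    have h3 : ∑ D ∈ Fb, (1 : ℝ) / D ≤ 1 / (Real.log X) ^ 2 := by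
      refine le_trans (sum_le_sum_of_subset_of_nonneg ?_ fun D _ _ => by positivity) (hT X hXX1)
      intro D hD
      rw [hFb, mem_filter, hF, mem_filter] at hD
      rw [mem_filter]
      exact ⟨hD.1.1, hD.1.2.1, hD.1.2.2.1, hD.1.2.2.2.1, hD.2⟩
    calc ∑ D ∈ Fb, 2 ^ J * A D / D ≤ ∑ D ∈ Fb, (Real.exp LL * X) * ((1 : ℝ) / D) := by
          refine sum_le_sum fun D _ => ?_
          rw [mul_one_div]
          gcongr
          exact hAX D
      _ = (Real.exp LL * X) * ∑ D ∈ Fb, (1 : ℝ) / D := (mul_sum _ _ _).symm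
      _ ≤ (Real.exp LL * X) * (1 / (Real.log X) ^ 2) := by gcongr
      _ = Real.exp (-LL) * X := by
          rw [hLe, Real.exp_neg, hLe]
          field_simp
      _ ≤ ε / 2 * X := by gcongr
  have hgood : ∑ D ∈ Fg, 2 ^ J * A D / D ≤ ε / 2 * X := by
    have h3 : ∀ D ∈ Fg, A D ≤ C * X * 2 ^ J * Real.exp (-(κ / 2 * LL)) := by
      intro D hD
      rw [hFg, mem_filter, not_lt] at hD
      refine (hR (LS W X D) X J (by omega) ?_).trans ?_
      · intro p hp
        unfold LS PQ at hp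
        rw [mem_filter, mem_filter, mem_Icc] at hp
        exact ⟨hp.1.2.1, hp.1.1.2⟩
      · have h4 : Real.exp (-(1 / 2) * ∑ p ∈ LS W X D, (1 : ℝ) / p) ≤
            Real.exp (-(κ / 2 * LL)) := by
          apply Real.exp_le_exp.2
          linarith [hD.2]
        gcongr
    have h5 : ∑ D ∈ Fg, (1 : ℝ) / D ≤ z⁻¹ ^ J * Real.exp (κ / 16 * LL + |C1|) := by
      refine (rankin z hz0 hz1 X J Fg ?_).trans ?_
      · intro D hD
        rw [hFg, mem_filter, hF, mem_filter, mem_Icc] at hD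
        exact ⟨by omega, hD.1.1.2, hD.1.2.2.2.1, hD.1.2.2.2.2⟩
      · refine mul_le_mul_of_nonneg_left (Real.exp_le_exp.2 ?_) (by positivity)
        have h6 := (abs_le.1 (hM X hX3)).2
        have h7 : ∑ p ∈ (Icc 1 X).filter Nat.Prime, (1 : ℝ) / p ≤ LL + |C1| := by
          have := le_abs_self C1
          linarith
        calc z * ∑ p ∈ (Icc 1 X).filter Nat.Prime, (1 : ℝ) / p ≤ z * (LL + |C1|) := by gcongr
          _ = z * LL + z * |C1| := by ring
          _ ≤ κ / 16 * LL + 1 * |C1| := by gcongr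
          _ = κ / 16 * LL + |C1| := by rw [one_mul]
    calc ∑ D ∈ Fg, 2 ^ J * A D / D
        ≤ ∑ D ∈ Fg, (2 ^ J * (C * X * 2 ^ J * Real.exp (-(κ / 2 * LL)))) * ((1 : ℝ) / D) := by
          refine sum_le_sum fun D hD => ?_
          rw [mul_one_div]
          have := h3 D hD
          gcongr
      _ = (2 ^ J * (C * X * 2 ^ J * Real.exp (-(κ / 2 * LL)))) * ∑ D ∈ Fg, (1 : ℝ) / D :=
          (mul_sum _ _ _).symm
      _ ≤ (2 ^ J * (C * X * 2 ^ J * Real.exp (-(κ / 2 * LL)))) *
            (z⁻¹ ^ J * Real.exp (κ / 16 * LL + |C1|)) := by gcongr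
      _ = C * X * ((2 : ℝ) ^ J * 2 ^ J * z⁻¹ ^ J) * (Real.exp (-(κ / 2 * LL)) *
            Real.exp (κ / 16 * LL + |C1|)) := by ring
      _ ≤ C * X * Real.exp (κ / 16 * LL) * (Real.exp (-(κ / 2 * LL)) *
            Real.exp (κ / 16 * LL + |C1|)) := by gcongr
      _ = C * X * Real.exp (|C1| - 3 / 8 * κ * LL) := by
          rw [mul_assoc, ← Real.exp_add, ← Real.exp_add]
          congr 2
          ring
      _ ≤ C * X * (Real.exp |C1| * Real.exp (-(κ / 4 * LL))) := by
          rw [← Real.exp_add]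
          have h8 : |C1| - 3 / 8 * κ * LL ≤ |C1| + -(κ / 4 * LL) := by
            have : 0 ≤ κ * LL := by positivity
            linarith
          gcongr
      _ = K * X * Real.exp (-(κ / 4 * LL)) := by rw [hK]; ring
      _ ≤ K * X * (ε / (2 * K)) := by gcongr
      _ = ε / 2 * X := by
          field_simp
  calc ∑ D ∈ F, 2 ^ J * A D / D ≤ ε / 2 * X + ε / 2 * X := by
        rw [hsplit]
        exact add_le_add hbad hgood
    _ = ε * X := by ring

end Pool.Agent.Y46.KEY
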